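import Pool.Agent.W973.IP.FDefs

/-!
# Polynomial time for `comb` and `isoInst` (part of project IP)
-/

set_option autoImplicit false

namespace Pool.Agent.W40.IP

open Pool.Agent.W973.IP Pool.Agent.NPC Pool.Agent.NPC.ER Pool.Agent.NPC.H612

/-- Renaming of a symbol. -/
def rtok (σ : ℕ → ℕ) (t : Tok) : Tok := if t.code.1 = 0 then Tok.var (σ t.code.2) else t

theorem toks_tren (σ : ℕ → ℕ) (t : Tm) : (tren σ t).toks = t.toks.map (rtok σ) := by
  induction t with
  | var i => simp [tren, Tm.toks, rtok, Tok.code]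
  | zero => simp [tren, Tm.toks, rtok, Tok.code]
  | one => simp [tren, Tm.toks, rtok, Tok.code]
  | add s t ihs iht => simp [tren, Tm.toks, rtok, Tok.code, ihs, iht]
  | neg t ih => simp [tren, Tm.toks, rtok, Tok.code, ih]
  | mul s t ihs iht => simp [tren, Tm.toks, rtok, Tok.code, ihs, iht]

theorem toks_fren (σ : ℕ → ℕ) (φ : Fm) : (fren σ φ).toks = φ.toks.map (rtok σ) := by
  induction φ with
  | eq s t => simp [fren, Fm.toks, rtok, Tok.code, toks_tren]
  | lt s t => simp [fren, Fm.toks, rtok, Tok.code, toks_tren]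
  | le s t => simp [fren, Fm.toks, rtok, Tok.code, toks_tren]
  | not φ ih => simp [fren, Fm.toks, rtok, Tok.code, ih]
  | and φ ψ ih1 ih2 => simp [fren, Fm.toks, rtok, Tok.code, ih1, ih2]
  | or φ ψ ih1 ih2 => simp [fren, Fm.toks, rtok, Tok.code, ih1, ih2]

variable {α : Type} [TEnc α]

theorem poly_fren {F : α → Fm} {σ : α → ℕ → ℕ} (hF : NPC.Poly F)
    (hσ : NPC.Poly (fun q : α × ℕ => σ q.1 q.2)) : NPC.Poly (fun a => fren (σ a) (F a)) := by
  refine fm_of_toks (NPC.Poly.congr (f := fun a => (F a).toks.map (rtok (σ a))) ?_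
    fun a => (toks_fren _ _).symm)
  refine NPC.Poly.map (F := fun a t => rtok (σ a) t) (fm_toks hF) ?_
  have hc : NPC.Poly (fun p : α × Tok => p.2.code) := poly_tok_code (NPC.Poly.snd NPC.Poly.id)
  exact NPC.Poly.ite (NPC.Poly.decide_eq (NPC.Poly.fst hc) (NPC.Poly.const 0))
    (poly_tok_var' (hσ.comp (NPC.Poly.pair (NPC.Poly.fst NPC.Poly.id) (NPC.Poly.snd hc)))) (NPC.Poly.snd NPC.Poly.id)

theorem poly_fvars {F : α → Fm} (hF : NPC.Poly F) : NPC.Poly (fun a => fvars (F a)) := by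
  refine NPC.Poly.flatMap (F := fun _ t => tokv t) (fm_toks hF) ?_
  have hc : NPC.Poly (fun p : α × Tok => p.2.code) := poly_tok_code (NPC.Poly.snd NPC.Poly.id)
  exact NPC.Poly.ite (NPC.Poly.decide_eq (NPC.Poly.fst hc) (NPC.Poly.const 0))
    (NPC.Poly.cons (NPC.Poly.snd hc) (NPC.Poly.const [])) (NPC.Poly.const [])

/-- The variable `3 * i + 1`. -/
theorem poly_v31 {i : α → ℕ} (hi : NPC.Poly i) : NPC.Poly (fun a => Tm.var (3 * i a + 1)) :=
  poly_tvar (NPC.Poly.succ (NPC.Poly.mul (NPC.Poly.const 3) hi))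

theorem poly_scon {c : α → ER.Con} (hc : NPC.Poly c) : NPC.Poly (fun a => scon (c a)) := by
  have h := poly_con_code hc
  have h1 := NPC.Poly.fst (NPC.Poly.snd h)
  have h2 := NPC.Poly.fst (NPC.Poly.snd (NPC.Poly.snd h))
  have h3 := NPC.Poly.snd (NPC.Poly.snd (NPC.Poly.snd h))
  refine (NPC.Poly.ite (p := fun a => (c a).code.1 = 0) (NPC.Poly.decide_eq (NPC.Poly.fst h) (NPC.Poly.const 0))
    (poly_feq (poly_v31 h1) (NPC.Poly.const (Tm.var 2)))
    (NPC.Poly.ite (p := fun a => (c a).code.1 = 1) (NPC.Poly.decide_eq (NPC.Poly.fst h) (NPC.Poly.const 1))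
      (poly_feq (poly_tadd (poly_v31 h1) (poly_v31 h2)) (poly_v31 h3))
      (poly_feq (poly_tmul (poly_v31 h1) (poly_v31 h2))
        (poly_tmul (NPC.Poly.const (Tm.var 2)) (poly_v31 h3))))).congr fun a => ?_
  cases c a <;> rfl

theorem poly_comb {F κ : α → Fm} (hF : NPC.Poly F) (hκ : NPC.Poly κ) :
    NPC.Poly (fun a => comb (F a) (κ a)) := by
  have hS : NPC.Poly (fun a => sysOf (κ a)) := poly_sysOf hκ
  have hV : NPC.Poly (fun a => varsOf (sysOf (κ a))) := poly_varsOf hS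
  have h0 : NPC.Poly (fun a => fren (fun i => 3 * i) (F a)) :=
    poly_fren (σ := fun _ i => 3 * i) hF (NPC.Poly.mul (NPC.Poly.const 3) (NPC.Poly.snd NPC.Poly.id))
  refine poly_fand h0 (poly_for (poly_fand (NPC.Poly.const _) (poly_conj ?_))
    (poly_fand (NPC.Poly.const _) (poly_fand (poly_conj ?_) (poly_conj ?_))))
  · exact NPC.Poly.map (F := fun _ v => Fm.eq (Tm.var (3 * v + 1)) Tm.zero) hV
      (poly_feq (poly_v31 (NPC.Poly.snd NPC.Poly.id)) (NPC.Poly.const _))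
  · exact NPC.Poly.map (F := fun _ c => scon c) hS (poly_scon (NPC.Poly.snd NPC.Poly.id))
  · refine NPC.Poly.map (F := fun a v => if v % 2 = 0 ∧ v / 2 ∈ fvars (F a) then
        Fm.eq (Tm.var (3 * v + 1)) (Tm.mul (Tm.var 2) (Tm.var (3 * (v / 2)))) else tt) hV ?_
    have hv : NPC.Poly (fun p : α × ℕ => p.2) := NPC.Poly.snd NPC.Poly.id
    have hd : NPC.Poly (fun p : α × ℕ => p.2 / 2) := NPC.Poly.div hv (NPC.Poly.const 2)
    refine NPC.Poly.ite (NPC.Poly.decide_and (NPC.Poly.decide_eq (NPC.Poly.mod hv (NPC.Poly.const 2)) (NPC.Poly.const 0))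
      (NPC.Poly.decide_mem hd ((poly_fvars hF).comp (NPC.Poly.fst NPC.Poly.id)))) ?_ (NPC.Poly.const _)
    exact poly_feq (poly_v31 hv) (poly_tmul (NPC.Poly.const _)
      (poly_tvar (NPC.Poly.mul (NPC.Poly.const 3) hd)))

theorem poly_isoInst {Φ : α → Fm} (hΦ : NPC.Poly Φ) : NPC.Poly (fun a => isoInst (Φ a)) := by
  have hD : NPC.Poly (fun a => (fvars (Φ a)).dedup) := poly_dedup (poly_fvars hΦ)
  refine NPC.Poly.pair (poly_replicate hD ()) (poly_fren (σ := fun a i => (fvars (Φ a)).dedup.idxOf i)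
    hΦ ?_)
  exact poly_idxOf (hD.comp (NPC.Poly.fst NPC.Poly.id)) (NPC.Poly.snd NPC.Poly.id)

theorem pcT : S_PC := by
  intro α _ F κ hF hκ
  exact poly_isoInst (poly_comb hF hκ)

end Pool.Agent.W40.IP
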